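import Pool.Agent.Run7.h575.OI.B2

/-!
# Cosets with one-sided conditions on a closed set

Adaptation of the starting file `Pool/Agent/N512/HS/A6.lean` to one-sided conditions in two
charts.
-/

set_option autoImplicit false
set_option linter.unusedSectionVars false

open MeasureTheory Set Metric Filter Topology TopologicalSpace
open scoped ENNReal NNReal

namespace Run7.h575.OI

open Pool.Agent.Y485.HS Pool.Agent.Y489.SP Pool.Agent.Y475.HS Pool.Agent.R775.HS
  Pool.Agent.R775.HC Pool.Agent.N512.HS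
open Run7.h575.OH (SimStable OS)

section
variable {n : ℕ} {X : Type} [TopologicalSpace X]

/-- one-sided condition at the scale `r` with the constant `l`, in the charts `ψ` and `χ` -/
def OSX (ψ χ : OpenPartialHomeomorph X (E n)) (W : Set X) (r l : ℝ) (f : X → X) : Prop :=
  ∀ x ∈ W, ∀ y ∈ W, r ≤ dist (ψ x) (ψ y) →
    -(l * dist (ψ x) (ψ y) ^ 2) ≤ inner ℝ (χ (f x) - χ (f y)) (ψ x - ψ y)

theorem isClosed_osx {S : Type} [TopologicalSpace S] (ψ χ : OpenPartialHomeomorph X (E n))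
    {W : Set X} {r l : ℝ} {f : S → X → X} {D : Set S} (hD : IsClosed D)
    (hf : ∀ x ∈ W, ContinuousOn (fun s => χ (f s x)) D) :
    IsClosed {s | s ∈ D ∧ OSX ψ χ W r l (f s)} := by
  have h1 : {s | s ∈ D ∧ OSX ψ χ W r l (f s)} = D ∩ ⋂ (x : X) (_ : x ∈ W) (y : X) (_ : y ∈ W)
      (_ : r ≤ dist (ψ x) (ψ y)),
      (D ∩ (fun s : S => (inner ℝ (χ (f s x) - χ (f s y)) (ψ x - ψ y) : ℝ)) ⁻¹'
        Ici (-(l * dist (ψ x) (ψ y) ^ 2))) := by
    ext s
    simp only [OSX, mem_ofPred_eq, mem_inter_iff, mem_iInter, mem_preimage, mem_Ici]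
    constructor
    · rintro ⟨h1, h2⟩
      exact ⟨h1, fun x hx y hy hxy => ⟨h1, h2 x hx y hy hxy⟩⟩
    · rintro ⟨h1, h2⟩
      exact ⟨h1, fun x hx y hy hxy => (h2 x hx y hy hxy).2⟩
  rw [h1]
  refine hD.inter ?_
  refine isClosed_iInter fun x => isClosed_iInter fun hx => isClosed_iInter fun y =>
    isClosed_iInter fun hy => isClosed_iInter fun _ => ?_
  refine ContinuousOn.preimage_isClosed_of_isClosed ?_ hD isClosed_Ici
  exact ((hf x hx).sub (hf y hy)).inner continuousOn_const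

/-- a coset with one-sided conditions on a closed set which contains all nontrivial continua of
the closure of the set of the points of infinite orbit -/
theorem rel_coset (hn : 1 ≤ n) [T2Space X] {S : Type} [Group S] [TopologicalSpace S]
    [IsTopologicalGroup S] [CompactSpace S] [T2Space S] [TotallyDisconnectedSpace S]
    [MulAction S X] [ContinuousSMul S X] {φ ψ χ : OpenPartialHomeomorph X (E n)} {g s1 : S}
    {B P : Set (E n)} (hBo : IsOpen B) (hBt : B ⊆ φ.target) (hPc : IsClosed P)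
    (hP : ∀ C ⊆ B, IsPreconnected C →
      (∀ v ∈ C, φ.symm v ∈ closure {x : X | InfOrbit g x}) → ¬ C.Subsingleton → C ⊆ P)
    (hψ : ∀ v ∈ B, φ.symm v ∈ ψ.source)
    (hs1 : ∀ v ∈ B, s1 • φ.symm v ∈ χ.source) {r l : ℕ → ℝ} (hr : ∀ j, 0 < r j)
    (hr1 : ∀ j, r j ≤ 1) (hl : ∀ j, 0 ≤ l j)
    (hrl : Tendsto (fun j => r j * (1 + l j) ^ n) atTop (𝓝 0)) {m : ℕ} {K : Subgroup S}
    (hKc : IsClosed (K : Set S)) (hKg : ∀ k ∈ K, k ∈ (Subgroup.zpowers g).topologicalClosure)
    (hK : ∀ k ∈ K, ∀ j, m ≤ j →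
      OSX ψ χ (φ.symm '' (B ∩ P)) (r j) (l j) (fun x => (s1 * k) • x)) {v1 : E n}
    (hv1 : v1 ∈ B) :
    ∃ K1 : Subgroup K, IsOpen (K1 : Set K) ∧
      ∀ᶠ x in 𝓝 (φ.symm v1), ∀ k ∈ K1, k • x = x := by
  have : CompactSpace K := isCompact_iff_compactSpace.1 hKc.isCompact
  let A : Set (OpenPartialHomeomorph X (E n)) := {φ' | φ'.source ⊆ φ.source ∩ φ ⁻¹' B ∧
    ∃ (c : ℝ) (a : E n), 0 < c ∧ ∀ x ∈ φ'.source, φ' x = c • (χ (s1 • x) - a)}
  have hA : SimStable n A := by
    rintro φ' ⟨h1, c, a, hc, hca⟩ e ⟨c', a', hc', he⟩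
    have hsub : (φ'.trans e).source ⊆ φ'.source := by
      rw [OpenPartialHomeomorph.trans_source]
      exact inter_subset_left
    refine ⟨hsub.trans h1, c' * c, a + c⁻¹ • a', by positivity, fun x hx => ?_⟩
    rw [OpenPartialHomeomorph.coe_trans, Function.comp_apply, he, hca x (hsub hx), mul_smul]
    congr 1
    rw [smul_sub, smul_sub, smul_add, smul_smul, mul_inv_cancel₀ hc.ne', one_smul, sub_sub]
  have hO : IsOpen (φ.source ∩ φ ⁻¹' B) := φ.isOpen_inter_preimage hBo
  have hx1 : φ.symm v1 ∈ RegA A := by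
    refine ⟨((Homeomorph.smul s1).toOpenPartialHomeomorph.trans χ).restrOpen _ hO, ⟨?_, 1, 0,
      one_pos, ?_⟩, ?_⟩
    · rw [OpenPartialHomeomorph.restrOpen_source]
      exact inter_subset_right
    · intro x _
      rw [one_smul, sub_zero]
      rfl
    · rw [OpenPartialHomeomorph.restrOpen_source, OpenPartialHomeomorph.trans_source]
      refine ⟨⟨mem_univ _, ?_⟩, φ.map_target (hBt hv1), ?_⟩
      · show s1 • φ.symm v1 ∈ χ.source
        exact hs1 v1 hv1
      · show φ (φ.symm v1) ∈ B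
        rw [φ.right_inv (hBt hv1)]
        exact hv1
  have hcrit : ∀ k : K, Crit A k := by
    intro k p' _ _ hcomp φ' hφ' hsm
    obtain ⟨hφs, c, a, hc0, hca⟩ := hφ'
    obtain ⟨F0, f1, f2, f3, f4⟩ := OI.exists_good_inf (H := K) hcomp hsm
    apply f4
    have h34 : closedBall (0 : E n) 3 ⊆ closedBall 0 4 :=
      closedBall_subset_closedBall (by norm_num)
    have ht3 : closedBall (0 : E n) 3 ⊆ φ'.target := h34.trans hsm.1
    have hτs : ∀ v ∈ closedBall (0 : E n) 3, φ'.symm v ∈ φ'.source := fun v hv =>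
      φ'.map_target (ht3 hv)
    have hτφ : ∀ v ∈ closedBall (0 : E n) 3, φ.symm (φ (φ'.symm v)) = φ'.symm v := fun v hv =>
      φ.left_inv (hφs (hτs v hv)).1
    have hτψ : ∀ v ∈ closedBall (0 : E n) 3, φ'.symm v ∈ ψ.source := by
      intro v hv
      have h1 := hψ _ (hφs (hτs v hv)).2
      rwa [hτφ v hv] at h1
    -- the coordinates
    set τ : E n → E n := fun v => ψ (φ'.symm v) with hτ
    set σ : E n → E n := fun u => φ' (ψ.symm u) with hσ
    have hτc : ContinuousOn τ (closedBall 0 3) :=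
      ψ.continuousOn.comp (φ'.continuousOn_symm.mono ht3) fun v hv => hτψ v hv
    have hστ : ∀ v ∈ closedBall (0 : E n) 3, σ (τ v) = v := by
      intro v hv
      show φ' (ψ.symm (ψ (φ'.symm v))) = v
      rw [ψ.left_inv (hτψ v hv), φ'.right_inv (ht3 hv)]
    set R : Set (E n) := closedBall 0 3 ∩ (fun v => φ (φ'.symm v)) ⁻¹' P with hR
    have hRc : IsCompact R := by
      refine (isCompact_closedBall (0 : E n) 3).of_isClosed_subset ?_ inter_subset_left
      refine ContinuousOn.preimage_isClosed_of_isClosed ?_ isClosed_closedBall hPc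
      exact φ.continuousOn.comp (φ'.continuousOn_symm.mono ht3) fun v hv => (hφs (hτs v hv)).1
    set Q : Set (E n) := τ '' R with hQ
    have hQc : IsCompact Q := hRc.image_of_continuousOn (hτc.mono inter_subset_left)
    have hσc : ContinuousOn σ Q := by
      refine φ'.continuousOn.comp (ψ.continuousOn_symm.mono ?_) ?_
      · rintro _ ⟨v, hv, rfl⟩
        exact ψ.map_source (hτψ v hv.1)
      · rintro _ ⟨v, hv, rfl⟩
        show ψ.symm (ψ (φ'.symm v)) ∈ φ'.source
        rw [ψ.left_inv (hτψ v hv.1)]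
        exact hτs v hv.1
    have hσm : ∀ u ∈ Q, σ u ∈ closedBall (0 : E n) 4 := by
      rintro _ ⟨v, hv, rfl⟩
      rw [hστ v hv.1]
      exact h34 hv.1
    have hen : ∀ j, OS Q (r (j + m)) (c * l (j + m)) (fun u => F0 (σ u)) := by
      rintro j _ ⟨v, ⟨hv, hvP⟩, rfl⟩ _ ⟨w, ⟨hw, hwP⟩, rfl⟩ hvw
      show -(c * l (j + m) * dist (τ v) (τ w) ^ 2) ≤
        inner ℝ (F0 (σ (τ v)) - F0 (σ (τ w))) (τ v - τ w)
      rw [hστ v hv, hστ w hw]
      refine f3 v (h34 hv) w (h34 hw) _ _ fun q hq => ?_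
      have h3 := hK (q : S) q.2 (j + m) (by omega) (φ'.symm v)
        ⟨φ (φ'.symm v), ⟨(hφs (hτs v hv)).2, hvP⟩, hτφ v hv⟩ (φ'.symm w)
        ⟨φ (φ'.symm w), ⟨(hφs (hτs w hw)).2, hwP⟩, hτφ w hw⟩ hvw
      have a3 : q • φ'.symm v ∈ φ'.source := (hsm.2 q hq v (h34 hv)).1
      have b3 : q • φ'.symm w ∈ φ'.source := (hsm.2 q hq w (h34 hw)).1
      have h4 : φ' (q • φ'.symm v) - φ' (q • φ'.symm w) =
          c • (χ ((s1 * (q : S)) • φ'.symm v) - χ ((s1 * (q : S)) • φ'.symm w)) := by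
        rw [hca _ a3, hca _ b3, mul_smul, mul_smul, ← smul_sub]
        congr 1
        have e1 : q • φ'.symm v = (q : S) • φ'.symm v := rfl
        have e2 : q • φ'.symm w = (q : S) • φ'.symm w := rfl
        rw [e1, e2]
        abel
      rw [h4, inner_smul_left]
      show -(c * l (j + m) * dist (τ v) (τ w) ^ 2) ≤ (starRingEnd ℝ) c * _
      rw [conj_trivial]
      have h5 := mul_le_mul_of_nonneg_left h3 hc0.le
      calc -(c * l (j + m) * dist (τ v) (τ w) ^ 2) =
            c * -(l (j + m) * dist (τ v) (τ w) ^ 2) := by ring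
        _ ≤ _ := h5
    have hrl' : Tendsto (fun j => r (j + m) * (1 + c * l (j + m)) ^ n) atTop (𝓝 0) := by
      have h1 := (tendsto_add_atTop_iff_nat m).2 hrl
      have h2 := h1.const_mul ((max 1 c) ^ n)
      rw [mul_zero] at h2
      refine squeeze_zero (fun j => ?_) (fun j => ?_) h2
      · have g1 := hr (j + m)
        have g2 := hl (j + m)
        positivity
      · have g1 := hr (j + m)
        have g2 := hl (j + m)
        have g3 : 1 + c * l (j + m) ≤ max 1 c * (1 + l (j + m)) := by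
          have e1 : (1 : ℝ) ≤ max 1 c := le_max_left _ _
          have e2 : c ≤ max 1 c := le_max_right _ _
          nlinarith [mul_le_mul_of_nonneg_right e2 g2]
        calc r (j + m) * (1 + c * l (j + m)) ^ n
            ≤ r (j + m) * (max 1 c * (1 + l (j + m))) ^ n := by gcongr
          _ = max 1 c ^ n * (r (j + m) * (1 + l (j + m)) ^ n) := by rw [mul_pow]; ring
    have hae := OH.ae_fibre hQc (f := fun u => F0 (σ u)) (f1.comp hσc hσm)
      (r := fun j => r (j + m)) (l := fun j => c * l (j + m)) (fun j => hr _) (fun j => hr1 _)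
      (fun j => mul_nonneg hc0.le (hl _)) hrl' hen
    intro y hy ε hε
    have hopen : (ball (0 : E n) 1 ∩ ball y ε) ∈ 𝓝 y :=
      inter_mem (isOpen_ball.mem_nhds hy) (ball_mem_nhds y hε)
    have hd := Measure.dense_of_ae hae
    obtain ⟨y', ⟨hy1, hy2⟩, hy3⟩ := (mem_closure_iff_nhds.1 (hd y)) _ hopen
    refine ⟨y', hy1, hy2, ?_⟩
    intro C hC3 hCp hCZ hCy
    by_contra hns
    obtain ⟨i1, i2, i3, i4⟩ := cont_image (φ := φ) (B := B) hsm.1 hφs hC3 hCp
    have hsub : {x : X | InfOrbit k x} ⊆ {x : X | InfOrbit g x} := by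
      intro x hx
      have hx' : InfOrbit (k : S) x := hx
      exact inf_of_mem (hKg _ k.2) hx'
    have hCP := hP _ i2 i1 (by
      rintro _ ⟨v, hv, rfl⟩
      rw [i3 v hv]
      exact closure_mono hsub (hCZ v hv)) (fun h => hns (i4 h))
    have hsubs := hy3 (τ '' C) (image_mono fun v hv => ⟨hC3 hv, hCP (mem_image_of_mem _ hv)⟩)
      (hCp.image _ (hτc.mono hC3)) (by
        rintro _ ⟨v, hv, rfl⟩
        show F0 (σ (τ v)) = y'
        rw [hστ v (hC3 hv)]
        exact hCy v hv)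
    apply hns
    intro v hv w hw
    have h1 := hsubs (mem_image_of_mem _ hv) (mem_image_of_mem _ hw)
    rw [← hστ v (hC3 hv), h1, hστ w (hC3 hw)]
  exact OH.locTriv hn hA (H := K) hcrit hx1

end

end Run7.h575.OI
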