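import Pool.Agent.Run7.h575.OI.B3
import Pool.Agent.Run7.h575.OH.A5

/-!
# One element: from pointwise one-sided Hölder conditions to uniform conditions

Adaptation of the starting file `Pool/Agent/N512/HS/A7.lean` to one-sided conditions in countably
many charts.
-/

set_option autoImplicit false
set_option linter.unusedSectionVars false

open MeasureTheory Set Metric Filter Topology TopologicalSpace
open scoped ENNReal NNReal

namespace Run7.h575.OI

open Pool.Agent.Y485.HS Pool.Agent.Y489.SP Pool.Agent.Y475.HS Pool.Agent.R775.HS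
  Pool.Agent.R775.HC Pool.Agent.N512.HS
open Run7.h575.OH (be be_pos be_lt exists_be lseq rpow_scale)

section
variable {n : ℕ} {X : Type} [TopologicalSpace X]

/-- one-sided Hölder condition of an exponent greater than `1 - 1 / n` at the point `x`, in two of
the charts, tested only against points of infinite orbit -/
def OSI {S : Type} [Monoid S] [MulAction S X] (Ψ : ℕ → OpenPartialHomeomorph X (E n)) (γ : S)
    (x : X) : Prop :=
  ∃ i i' : ℕ, x ∈ (Ψ i).source ∧ γ • x ∈ (Ψ i').source ∧ ∃ β : ℝ, β * n < 1 ∧ ∃ N : ℝ,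
    ∀ᶠ y in 𝓝 x, InfOrbit γ y → -(N * dist (Ψ i y) (Ψ i x) ^ (2 - β)) ≤
      inner ℝ (Ψ i' (γ • y) - Ψ i' (γ • x)) (Ψ i y - Ψ i x)

/-- the one-sided condition at the points of infinite orbit off countably many closed totally
disconnected sets -/
def RegO {S : Type} [Monoid S] [MulAction S X] (Ψ : ℕ → OpenPartialHomeomorph X (E n))
    (γ : S) : Prop :=
  ∃ T : ℕ → Set X, (∀ i, IsClosed (T i)) ∧ (∀ i, IsTotallyDisconnected (T i)) ∧
    ∀ a, ∀ x ∈ (Ψ a).source, InfOrbit γ x → (∀ i, x ∉ T i) → OSI Ψ γ x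

theorem osi_nat (hn : 1 ≤ n) {ψ χ : OpenPartialHomeomorph X (E n)} {f : X → X} {I : X → Prop}
    {x : X} (hx : x ∈ ψ.source) {β N : ℝ} (hβ : β * n < 1)
    (h : ∀ᶠ y in 𝓝 x, I y → -(N * dist (ψ y) (ψ x) ^ (2 - β)) ≤
      inner ℝ (χ (f y) - χ (f x)) (ψ y - ψ x)) :
    ∃ k : ℕ × ℕ, ∀ y ∈ ψ.source, I y → dist (ψ y) (ψ x) < 1 / ((k.1 : ℝ) + 1) →
      -((k.1 : ℝ) * dist (ψ y) (ψ x) ^ (2 - be n k.2)) ≤
        inner ℝ (χ (f y) - χ (f x)) (ψ y - ψ x) := by
  obtain ⟨i, hi⟩ := exists_be hn hβ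
  have hct : ContinuousAt ψ.symm (ψ x) := ψ.continuousAt_symm (ψ.map_source hx)
  have hev : ∀ᶠ u in 𝓝 (ψ x), I (ψ.symm u) → -(N * dist (ψ (ψ.symm u)) (ψ x) ^ (2 - β)) ≤
      inner ℝ (χ (f (ψ.symm u)) - χ (f x)) (ψ (ψ.symm u) - ψ x) := by
    have h1 : Tendsto ψ.symm (𝓝 (ψ x)) (𝓝 x) := by
      have := hct.tendsto
      rwa [ψ.left_inv hx] at this
    exact h1.eventually h
  obtain ⟨δ, hδ, hball⟩ := Metric.eventually_nhds_iff.1 hev
  obtain ⟨m1, hm1⟩ := exists_nat_one_div_lt hδ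
  obtain ⟨m2, hm2⟩ := exists_nat_ge |N|
  refine ⟨(max m1 m2, i), fun y hy hI hyx => ?_⟩
  have hm1' : ((m1 : ℕ) : ℝ) ≤ ((max m1 m2 : ℕ) : ℝ) := by exact_mod_cast le_max_left _ _
  have hm2' : ((m2 : ℕ) : ℝ) ≤ ((max m1 m2 : ℕ) : ℝ) := by exact_mod_cast le_max_right _ _
  have hM0 : (0 : ℝ) ≤ ((max m1 m2 : ℕ) : ℝ) := Nat.cast_nonneg _
  change dist (ψ y) (ψ x) < 1 / (((max m1 m2 : ℕ) : ℝ) + 1) at hyx
  show -(((max m1 m2 : ℕ) : ℝ) * dist (ψ y) (ψ x) ^ (2 - be n i)) ≤ _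
  have e1 : dist (ψ y) (ψ x) < δ := by
    refine hyx.trans_le (le_trans ?_ hm1.le)
    exact one_div_le_one_div_of_le (by positivity) (by linarith)
  have e2 : dist (ψ y) (ψ x) ≤ 1 := by
    refine hyx.le.trans ?_
    rw [div_le_one (by positivity)]
    linarith
  have e3 := hball e1
  rw [ψ.left_inv hy] at e3
  have e3' := e3 hI
  rcases (dist_nonneg (x := ψ y) (y := ψ x)).eq_or_lt with h0 | h0
  · have e4 : ψ y = ψ x := dist_eq_zero.1 h0.symm
    rw [e4]
    simp only [sub_self, inner_zero_right, dist_self]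
    have : 0 ≤ ((max m1 m2 : ℕ) : ℝ) * (0 : ℝ) ^ (2 - be n i) :=
      mul_nonneg hM0 (Real.rpow_nonneg le_rfl _)
    linarith
  · have e4 : dist (ψ y) (ψ x) ^ (2 - β) ≤ dist (ψ y) (ψ x) ^ (2 - be n i) :=
      Real.rpow_le_rpow_of_exponent_ge h0 e2 (by linarith)
    have e5 : N * dist (ψ y) (ψ x) ^ (2 - β) ≤
        ((max m1 m2 : ℕ) : ℝ) * dist (ψ y) (ψ x) ^ (2 - be n i) := by
      have g1 : 0 ≤ dist (ψ y) (ψ x) ^ (2 - β) := Real.rpow_nonneg dist_nonneg _
      calc N * dist (ψ y) (ψ x) ^ (2 - β) ≤ |N| * dist (ψ y) (ψ x) ^ (2 - β) :=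
            mul_le_mul_of_nonneg_right (le_abs_self N) g1
        _ ≤ ((max m1 m2 : ℕ) : ℝ) * dist (ψ y) (ψ x) ^ (2 - be n i) := by
            refine mul_le_mul (by linarith) e4 g1 hM0
    linarith

theorem scale_le (hn : 1 ≤ n) (k : ℕ × ℕ) (j : ℕ) {d : ℝ} (hd : ((1 : ℝ) / 2) ^ j ≤ d) :
    (k.1 : ℝ) * d ^ (2 - be n k.2) ≤ lseq n k j * d ^ 2 := by
  have hr0 : (0 : ℝ) < (1 / 2) ^ j := by positivity
  have hd0 : 0 < d := hr0.trans_le hd
  have h2 : d ^ (2 - be n k.2) = d ^ 2 * d ^ (-be n k.2) := by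
    rw [sub_eq_add_neg, Real.rpow_add hd0, Real.rpow_two]
  have h3 : d ^ (-be n k.2) ≤ ((2 : ℝ) ^ be n k.2) ^ j := by
    rw [← rpow_scale]
    exact Real.rpow_le_rpow_of_nonpos hr0 hd (by have := be_pos hn k.2; linarith)
  have hk0 : (0 : ℝ) ≤ k.1 := Nat.cast_nonneg _
  calc (k.1 : ℝ) * d ^ (2 - be n k.2)
      = k.1 * d ^ (-be n k.2) * d ^ 2 := by rw [h2]; ring
    _ ≤ k.1 * ((2 : ℝ) ^ be n k.2) ^ j * d ^ 2 := by gcongr
    _ = lseq n k j * d ^ 2 := rfl

theorem be_lt_one (hn : 1 ≤ n) (i : ℕ) : be n i < 1 := by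
  have h1 := be_lt hn i
  have h2 := be_pos hn i
  have h3 : (1 : ℝ) ≤ n := by exact_mod_cast hn
  nlinarith

/-- one element: uniform one-sided conditions near a point -/
theorem one_os (hn : 1 ≤ n) [T2Space X] (Ψ : ℕ → OpenPartialHomeomorph X (E n)) {S : Type}
    [Group S] [TopologicalSpace S] [IsTopologicalGroup S]
    [CompactSpace S] [T2Space S] [TotallyDisconnectedSpace S] [MulAction S X]
    [ContinuousSMul S X] {p : ℕ} (hp : p.Prime) {g : S}
    (hg : Tendsto (fun j : ℕ => g ^ p ^ j) atTop (𝓝 1)) {φ : OpenPartialHomeomorph X (E n)}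
    (hφ : φ.source ⊆ ⋃ i, (Ψ i).source) {γ : S} (hreg : RegO Ψ γ)
    (ht4 : closedBall (0 : E n) 4 ⊆ φ.target)
    (hγI : ∀ x : X, InfOrbit γ x ↔ InfOrbit g x) {P : Set (E n)} (hPc : IsClosed P)
    (hPZ : ∀ v ∈ ball (0 : E n) 1 ∩ P, φ.symm v ∈ closure {x : X | InfOrbit g x})
    (hP : ∀ C ⊆ ball (0 : E n) 1, IsPreconnected C →
      (∀ v ∈ C, φ.symm v ∈ closure {x : X | InfOrbit g x}) → ¬ C.Subsingleton → C ⊆ P)
    (hPn : (ball (0 : E n) 1 ∩ P).Nonempty) :
    ∃ (i i' : ℕ) (k : ℕ × ℕ), ∃ B ∈ countableBasis (E n), ∃ B' ∈ countableBasis (E n),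
      B ⊆ ball 0 1 ∧ (B ∩ P).Nonempty ∧ IsCompact (closure B') ∧ closure B' ⊆ (Ψ i').target ∧
      (∀ v ∈ B, φ.symm v ∈ (Ψ i).source) ∧
      (∀ v ∈ B, γ • φ.symm v ∈ (Ψ i').symm '' closure B') ∧
      ∀ j, OSX (Ψ i) (Ψ i') (φ.symm '' (B ∩ P)) ((1 / 2) ^ j) (lseq n k j)
        (fun x => γ • x) := by
  classical
  have hb4 : ball (0 : E n) 1 ⊆ closedBall 0 4 :=
    ball_subset_closedBall.trans (closedBall_subset_closedBall (by norm_num))
  have hbt : ball (0 : E n) 1 ⊆ φ.target := hb4.trans ht4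
  have hinj : ∀ a ∈ ball (0 : E n) 1, ∀ b ∈ ball (0 : E n) 1, φ.symm a = φ.symm b → a = b := by
    intro a ha b hb hab
    rw [← φ.right_inv (hbt ha), hab, φ.right_inv (hbt hb)]
  obtain ⟨T, hTc, hTd, hT⟩ := hreg
  -- the domains
  set Rg : ℕ → ℕ → Set (E n) := fun i i' => ball 0 1 ∩ φ.symm ⁻¹'
    ((Ψ i).source ∩ {x | γ • x ∈ (Ψ i').source}) with hRg
  have hRgo : ∀ i i', IsOpen (Rg i i') := by
    intro i i'
    have h1 : IsOpen ((Ψ i).source ∩ {x | γ • x ∈ (Ψ i').source}) :=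
      (Ψ i).open_source.inter ((Ψ i').open_source.preimage (continuous_const_smul γ))
    have h2 := (φ.continuousOn_symm.mono hbt).isOpen_inter_preimage isOpen_ball h1
    exact h2
  have hcψ : ∀ i i', ContinuousOn (fun w => Ψ i (φ.symm w)) (Rg i i') := fun i i' =>
    (Ψ i).continuousOn.comp (φ.continuousOn_symm.mono (inter_subset_left.trans hbt))
      fun w hw => hw.2.1
  have hcχ : ∀ i i', ContinuousOn (fun w => Ψ i' (γ • φ.symm w)) (Rg i i') := fun i i' =>
    (Ψ i').continuousOn.comp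
      ((φ.continuousOn_symm.mono (inter_subset_left.trans hbt)).const_smul γ)
      fun w hw => hw.2.2
  obtain ⟨v0, hv01, hv0P⟩ := hPn
  obtain ⟨ρ0, hρ0, hρ0s⟩ := (nhds_basis_closedBall.mem_iff).1 (isOpen_ball.mem_nhds hv01)
  set Q : Set (E n) := closure (ball v0 ρ0 ∩ P) with hQ
  have hQb : Q ⊆ closedBall v0 ρ0 ∩ P :=
    closure_minimal (inter_subset_inter_left _ ball_subset_closedBall)
      (isClosed_closedBall.inter hPc)
  have hQ1 : ∀ v ∈ Q, v ∈ ball (0 : E n) 1 ∩ P := fun v hv => ⟨hρ0s (hQb hv).1, (hQb hv).2⟩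
  have hQcl : IsClosed Q := isClosed_closure
  have hQcs : CompleteSpace Q := hQcl.completeSpace_coe
  have hQne : Nonempty Q := ⟨⟨v0, subset_closure ⟨mem_ball_self hρ0, hv0P⟩⟩⟩
  have hsc : Continuous (fun v : Q => φ.symm (v : E n)) :=
    φ.continuousOn_symm.comp_continuous continuous_subtype_val fun v => hbt (hQ1 v v.2).1
  -- the pieces
  have hcount : (countableBasis (E n)).Countable := countable_countableBasis (E n)
  have : Countable (countableBasis (E n)) := hcount.to_subtype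
  let f : ℕ ⊕ ℕ ⊕ (ℕ × ℕ × (ℕ × ℕ) × countableBasis (E n)) → Set Q := fun q => match q with
    | Sum.inl M => {v | g ^ (M + 1) • φ.symm (v : E n) = φ.symm v}
    | Sum.inr (Sum.inl i) => {v | φ.symm (v : E n) ∈ T i}
    | Sum.inr (Sum.inr (i, i', k, B)) => {v | closure (B : Set (E n)) ⊆ Rg i i' ∧
        (v : E n) ∈ closure (B : Set (E n)) ∧ ∀ w ∈ Rg i i', InfOrbit γ (φ.symm w) →
        dist (Ψ i (φ.symm w)) (Ψ i (φ.symm v)) < 1 / ((k.1 : ℝ) + 1) →
        -((k.1 : ℝ) * dist (Ψ i (φ.symm w)) (Ψ i (φ.symm v)) ^ (2 - be n k.2)) ≤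
          inner ℝ (Ψ i' (γ • φ.symm w) - Ψ i' (γ • φ.symm v))
            (Ψ i (φ.symm w) - Ψ i (φ.symm v))}
  have hfcl : ∀ q, IsClosed (f q) := by
    rintro (M | i | ⟨i, i', k, B⟩)
    · exact isClosed_eq (hsc.const_smul _) hsc
    · exact (hTc i).preimage hsc
    · by_cases hB : closure (B : Set (E n)) ⊆ Rg i i'
      swap
      · have h1 : f (Sum.inr (Sum.inr (i, i', k, B))) = ∅ := by
          ext v
          simp only [f, mem_ofPred_eq, mem_empty_iff_false, iff_false, not_and]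
          exact fun h => absurd h hB
        rw [h1]
        exact isClosed_empty
      set D : Set Q := {v | (v : E n) ∈ closure (B : Set (E n))} with hD
      have hDc : IsClosed D := isClosed_closure.preimage continuous_subtype_val
      have h1 : f (Sum.inr (Sum.inr (i, i', k, B))) = D ∩ ⋂ (w : E n) (_ : w ∈ Rg i i')
          (_ : InfOrbit γ (φ.symm w)), (D ∩ (fun v : Q =>
            ((dist (Ψ i (φ.symm w)) (Ψ i (φ.symm (v : E n))), (inner ℝ
              (Ψ i' (γ • φ.symm w) - Ψ i' (γ • φ.symm (v : E n)))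
              (Ψ i (φ.symm w) - Ψ i (φ.symm (v : E n))) : ℝ)) : ℝ × ℝ)) ⁻¹'
            {q : ℝ × ℝ | q.1 < 1 / ((k.1 : ℝ) + 1) →
              -((k.1 : ℝ) * q.1 ^ (2 - be n k.2)) ≤ q.2}) := by
        ext v
        simp only [f, mem_ofPred_eq, mem_inter_iff, mem_iInter, mem_preimage, hD]
        constructor
        · rintro ⟨-, h2, h3⟩
          exact ⟨h2, fun w hw hI => ⟨h2, h3 w hw hI⟩⟩
        · rintro ⟨h2, h3⟩
          exact ⟨hB, h2, fun w hw hI => (h3 w hw hI).2⟩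
      rw [h1]
      refine hDc.inter ?_
      refine isClosed_iInter fun w => isClosed_iInter fun _ => isClosed_iInter fun _ => ?_
      refine ContinuousOn.preimage_isClosed_of_isClosed ?_ hDc ?_
      · have c1 : ContinuousOn (fun v : Q => Ψ i (φ.symm (v : E n))) D :=
          (hcψ i i').comp continuous_subtype_val.continuousOn fun v hv => hB hv
        have c2 : ContinuousOn (fun v : Q => Ψ i' (γ • φ.symm (v : E n))) D :=
          (hcχ i i').comp continuous_subtype_val.continuousOn fun v hv => hB hv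
        exact (continuous_dist.comp_continuousOn (continuousOn_const.prodMk c1)).prodMk
          ((continuousOn_const.sub c2).inner (continuousOn_const.sub c1))
      · have hb := be_lt_one hn k.2
        refine isClosed_imp (isOpen_lt continuous_fst continuous_const) (isClosed_le ?_
          continuous_snd)
        exact (continuous_const.mul (continuous_fst.rpow_const
          fun _ => Or.inr (by linarith))).neg
  have hfU : ⋃ q, f q = univ := by
    ext v
    simp only [mem_iUnion, mem_univ, iff_true]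
    have hv1 := hQ1 v v.2
    by_cases hI : InfOrbit g (φ.symm (v : E n))
    swap
    · simp only [InfOrbit, not_forall, not_not] at hI
      obtain ⟨M, hM, h⟩ := hI
      refine ⟨Sum.inl (M - 1), ?_⟩
      show g ^ (M - 1 + 1) • φ.symm (v : E n) = φ.symm v
      rw [Nat.sub_add_cancel hM]
      exact h
    by_cases hTi : ∃ i, φ.symm (v : E n) ∈ T i
    · obtain ⟨i, hi⟩ := hTi
      exact ⟨Sum.inr (Sum.inl i), hi⟩
    push Not at hTi
    obtain ⟨a, ha⟩ := mem_iUnion.1 (hφ (φ.map_target (hbt hv1.1)))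
    obtain ⟨i, i', hxi, hxi', β, hβ, N, hN⟩ := hT a _ ha ((hγI _).2 hI) hTi
    obtain ⟨k, hk⟩ := osi_nat (f := fun x => γ • x) (I := InfOrbit γ) hn hxi hβ hN
    have hvR : (v : E n) ∈ Rg i i' := ⟨hv1.1, hxi, hxi'⟩
    obtain ⟨ρ, hρ, hρs⟩ := (nhds_basis_closedBall.mem_iff).1 ((hRgo i i').mem_nhds hvR)
    obtain ⟨B, hB, hvB, hBs⟩ := (isBasis_countableBasis (E n)).mem_nhds_iff.1
      (ball_mem_nhds (v : E n) hρ)
    refine ⟨Sum.inr (Sum.inr (i, i', k, ⟨B, hB⟩)), ?_, subset_closure hvB, ?_⟩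
    · exact (closure_minimal (hBs.trans ball_subset_closedBall) isClosed_closedBall).trans hρs
    · intro w hw hIw hwv
      exact hk _ hw.2.1 hIw hwv
  obtain ⟨q, v, hv⟩ := nonempty_interior_of_iUnion_of_closed hfcl hfU
  obtain ⟨U, hUo, hUf⟩ := isOpen_induced_iff.1 (isOpen_interior (s := f q))
  have hvU : (v : E n) ∈ U := by
    rw [← hUf] at hv
    exact hv
  obtain ⟨v2, hv2U, hv2b, hv2P⟩ := mem_closure_iff_nhds.1 v.2 U (hUo.mem_nhds hvU)
  set U' : Set (E n) := U ∩ ball v0 ρ0 with hU'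
  have hU'o : IsOpen U' := hUo.inter isOpen_ball
  have hU'1 : U' ⊆ ball 0 1 := (inter_subset_right.trans ball_subset_closedBall).trans hρ0s
  have hv2U' : v2 ∈ U' := ⟨hv2U, hv2b⟩
  have hpiece : ∀ w, w ∈ U' → w ∈ P → ∃ hw : w ∈ Q, (⟨w, hw⟩ : Q) ∈ f q := by
    intro w hw hwP
    have hwQ : w ∈ Q := subset_closure ⟨hw.2, hwP⟩
    refine ⟨hwQ, interior_subset (s := f q) ?_⟩
    rw [← hUf]
    exact hw.1
  have hv2Z := hPZ v2 ⟨hU'1 hv2U', hv2P⟩
  rcases q with M | i | ⟨i, i', k, B1⟩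
  · -- a power acts trivially
    exfalso
    refine no_fix hn hp hg hU'o (hU'1.trans hbt) (Nat.succ_pos M) ?_ hv2U' hv2Z
    intro C hC hCp hCZ hns w hw
    have hwP := hP C (hC.trans hU'1) hCp hCZ hns hw
    obtain ⟨_, h⟩ := hpiece w (hC hw) hwP
    exact h
  · -- totally disconnected
    exfalso
    refine no_fix hn hp hg hU'o (hU'1.trans hbt) one_pos ?_ hv2U' hv2Z
    intro C hC hCp hCZ hns
    exfalso
    apply hns
    have hCP := hP C (hC.trans hU'1) hCp hCZ hns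
    have h1 : (φ.symm '' C).Subsingleton := by
      refine hTd i _ ?_ (hCp.image _ (φ.continuousOn_symm.mono (hC.trans (hU'1.trans hbt))))
      rintro _ ⟨w, hw, rfl⟩
      obtain ⟨_, h⟩ := hpiece w (hC hw) (hCP hw)
      exact h
    intro a ha b hb
    exact hinj a (hU'1 (hC ha)) b (hU'1 (hC hb)) (h1 (mem_image_of_mem _ ha)
      (mem_image_of_mem _ hb))
  · -- one-sided
    obtain ⟨_, hB1R, hv2B1, -⟩ := hpiece v2 hv2U' hv2P
    have hv2R : v2 ∈ Rg i i' := hB1R hv2B1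
    -- the target ball
    have hz : Ψ i' (γ • φ.symm v2) ∈ (Ψ i').target := (Ψ i').map_source hv2R.2.2
    obtain ⟨ρ, hρ, hρs⟩ := (nhds_basis_closedBall.mem_iff).1 ((Ψ i').open_target.mem_nhds hz)
    obtain ⟨B', hB', hzB', hB's⟩ := (isBasis_countableBasis (E n)).mem_nhds_iff.1
      (ball_mem_nhds (Ψ i' (γ • φ.symm v2)) hρ)
    have hclB' : closure B' ⊆ closedBall (Ψ i' (γ • φ.symm v2)) ρ :=
      closure_minimal (hB's.trans ball_subset_closedBall) isClosed_closedBall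
    have hcomp : IsCompact (closure B') :=
      (isCompact_closedBall _ _).of_isClosed_subset isClosed_closure hclB'
    have hBo' : IsOpen B' := (isBasis_countableBasis (E n)).isOpen hB'
    have hpos : (0 : ℝ) < 1 / (2 * ((k.1 : ℝ) + 1)) := by positivity
    have hca1 : ContinuousAt (fun w => Ψ i (φ.symm w)) v2 :=
      (hcψ i i').continuousAt ((hRgo i i').mem_nhds hv2R)
    have hca2 : ContinuousAt (fun w => Ψ i' (γ • φ.symm w)) v2 :=
      (hcχ i i').continuousAt ((hRgo i i').mem_nhds hv2R)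
    have hnb : ∀ᶠ w in 𝓝 v2, w ∈ U' ∧ w ∈ Rg i i' ∧
        dist (Ψ i (φ.symm w)) (Ψ i (φ.symm v2)) < 1 / (2 * ((k.1 : ℝ) + 1)) ∧
        Ψ i' (γ • φ.symm w) ∈ B' := by
      have g1 : ∀ᶠ w in 𝓝 v2, w ∈ U' := hU'o.mem_nhds hv2U'
      have g2 : ∀ᶠ w in 𝓝 v2, w ∈ Rg i i' := (hRgo i i').mem_nhds hv2R
      have g3 : ∀ᶠ w in 𝓝 v2, dist (Ψ i (φ.symm w)) (Ψ i (φ.symm v2)) <
          1 / (2 * ((k.1 : ℝ) + 1)) := Metric.tendsto_nhds.1 hca1 _ hpos
      have g4 : ∀ᶠ w in 𝓝 v2, Ψ i' (γ • φ.symm w) ∈ B' :=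
        hca2.eventually_mem (hBo'.mem_nhds hzB')
      exact g1.and (g2.and (g3.and g4))
    obtain ⟨B, hB, hv2B, hBs⟩ := (isBasis_countableBasis (E n)).mem_nhds_iff.1 hnb
    have hBo : IsOpen B := (isBasis_countableBasis (E n)).isOpen hB
    have hB1 : B ⊆ ball 0 1 := fun w hw => hU'1 (hBs hw).1
    refine ⟨i, i', k, B, hB, B', hB', hB1, ⟨v2, hv2B, hv2P⟩, hcomp, hclB'.trans hρs,
      fun w hw => (hBs hw).2.1.2.1, fun w hw => ?_, ?_⟩
    · exact ⟨_, subset_closure (hBs hw).2.2.2, (Ψ i').left_inv (hBs hw).2.1.2.2⟩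
    · rintro j _ ⟨w, ⟨hwB, hwP⟩, rfl⟩ _ ⟨a, ⟨haB, haP⟩, rfl⟩ hwa
      obtain ⟨haQ, -, -, ha'⟩ := hpiece a (hBs haB).1 haP
      -- approximation by points of infinite orbit
      have hwZ := hPZ w ⟨hB1 hwB, hwP⟩
      have hwcl : w ∈ closure {w' | w' ∈ B ∧ InfOrbit γ (φ.symm w')} := by
        rw [mem_closure_iff_nhds]
        intro W hW
        have hwt := hbt (hB1 hwB)
        have h1 : φ.source ∩ φ ⁻¹' (interior W ∩ B) ∈ 𝓝 (φ.symm w) := by
          refine (φ.isOpen_inter_preimage (isOpen_interior.inter hBo)).mem_nhds ?_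
          refine ⟨φ.map_target hwt, ?_⟩
          rw [mem_preimage, φ.right_inv hwt]
          exact ⟨mem_interior_iff_mem_nhds.2 hW, hwB⟩
        obtain ⟨x, ⟨hx1, hx2⟩, hxI⟩ := mem_closure_iff_nhds.1 hwZ _ h1
        refine ⟨φ x, interior_subset hx2.1, hx2.2, ?_⟩
        rw [φ.left_inv hx1]
        exact (hγI _).2 hxI
      have hwR : w ∈ Rg i i' := (hBs hwB).2.1
      have d1 : ContinuousAt (fun w => Ψ i (φ.symm w)) w :=
        (hcψ i i').continuousAt ((hRgo i i').mem_nhds hwR)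
      have d2 : ContinuousAt (fun w => Ψ i' (γ • φ.symm w)) w :=
        (hcχ i i').continuousAt ((hRgo i i').mem_nhds hwR)
      have hb := be_lt_one hn k.2
      have hmain : -((k.1 : ℝ) * dist (Ψ i (φ.symm w)) (Ψ i (φ.symm a)) ^ (2 - be n k.2)) ≤
          inner ℝ (Ψ i' (γ • φ.symm w) - Ψ i' (γ • φ.symm a))
            (Ψ i (φ.symm w) - Ψ i (φ.symm a)) := by
        refine ContinuousWithinAt.closure_le
          (f := fun w : E n =>
            -((k.1 : ℝ) * dist (Ψ i (φ.symm w)) (Ψ i (φ.symm a)) ^ (2 - be n k.2)))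
          (g := fun w : E n => inner ℝ (Ψ i' (γ • φ.symm w) - Ψ i' (γ • φ.symm a))
            (Ψ i (φ.symm w) - Ψ i (φ.symm a)))
          hwcl ?_ ?_ ?_
        · exact ((continuousAt_const.mul ((d1.dist continuousAt_const).rpow_const
            (Or.inr (by linarith)))).neg).continuousWithinAt
        · exact ((d2.sub continuousAt_const).inner
            (d1.sub continuousAt_const)).continuousWithinAt
        · rintro w' ⟨hw'B, hw'I⟩
          refine ha' w' (hBs hw'B).2.1 hw'I ?_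
          have e1 := (hBs hw'B).2.2.1
          have e2 := (hBs haB).2.2.1
          have e3 : 1 / (2 * ((k.1 : ℝ) + 1)) + 1 / (2 * ((k.1 : ℝ) + 1)) =
              1 / ((k.1 : ℝ) + 1) := by
            field_simp
            norm_num
          calc dist (Ψ i (φ.symm w')) (Ψ i (φ.symm a)) ≤
                dist (Ψ i (φ.symm w')) (Ψ i (φ.symm v2)) +
                dist (Ψ i (φ.symm a)) (Ψ i (φ.symm v2)) := dist_triangle_right _ _ _
            _ < 1 / ((k.1 : ℝ) + 1) := by linarith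
      refine le_trans ?_ hmain
      rw [neg_le_neg_iff]
      exact scale_le hn k j hwa

end

end Run7.h575.OI
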