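import Pool.Agent.Run7.h575.OI.B4
import Pool.Agent.N512.HS.A8

/-!
# Locally compact groups of homeomorphisms which satisfy one-sided conditions along the infinite
orbits

Adaptation of the starting file `Pool/Agent/N512/HS/A8.lean` to one-sided conditions in countably
many charts.
-/

set_option autoImplicit false
set_option linter.unusedSectionVars false

open MeasureTheory Set Metric Filter Topology TopologicalSpace
open scoped ENNReal NNReal

namespace Run7.h575.OI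

open Pool.Agent.Y485.HS Pool.Agent.Y489.SP Pool.Agent.Y475.HS Pool.Agent.R775.HS
  Pool.Agent.R775.HC Pool.Agent.N512.HS
open Pool.Agent.W660.GY (NSS GY3)
open Run7.h575.OH (be be_pos be_lt exists_be lseq rpow_scale lseq_nonneg tendsto_lseq)

section
variable {n : ℕ} {X : Type} [TopologicalSpace X]

/-- the charts with domain in the union of the domains of the given charts -/
def ACh (Ψ : ℕ → OpenPartialHomeomorph X (E n)) : Set (OpenPartialHomeomorph X (E n)) :=
  {φ | φ.source ⊆ ⋃ i, (Ψ i).source}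

theorem stable_ACh (Ψ : ℕ → OpenPartialHomeomorph X (E n)) : Stable n (ACh Ψ) := by
  rintro φ h1 e -
  have hsub : (φ.trans e).source ⊆ φ.source := by
    rw [OpenPartialHomeomorph.trans_source]
    exact inter_subset_left
  exact hsub.trans h1

theorem regA_ACh (Ψ : ℕ → OpenPartialHomeomorph X (E n)) :
    RegA (ACh Ψ) = ⋃ i, (Ψ i).source := by
  ext x
  constructor
  · rintro ⟨φ, hφ, hx⟩
    exact hφ hx
  · intro hx
    obtain ⟨i, hi⟩ := mem_iUnion.1 hx
    exact ⟨Ψ i, subset_iUnion (fun i => (Ψ i).source) i, hi⟩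

/-- the powers with exponents `p ^ j` tend to `1` in the closure of the powers -/
theorem tendsto_mem {S : Type} [Group S] [TopologicalSpace S] [IsTopologicalGroup S]
    [CompactSpace S] [T2Space S] [TotallyDisconnectedSpace S] {p : ℕ} {g x : S}
    (hg : Tendsto (fun j : ℕ => g ^ p ^ j) atTop (𝓝 1))
    (hx : x ∈ (Subgroup.zpowers g).topologicalClosure) :
    Tendsto (fun j : ℕ => x ^ p ^ j) atTop (𝓝 1) := by
  rw [_root_.tendsto_nhds]
  intro W hW h1W
  obtain ⟨U, hU⟩ := ProfiniteGrp.exist_openNormalSubgroup_sub_open_nhds_of_one hW h1W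
  have hUo : IsOpen (U.toSubgroup : Set S) := U.isOpen'
  have hUc : IsClosed (U.toSubgroup : Set S) := Subgroup.isClosed_of_isOpen _ hUo
  obtain ⟨J, hJ⟩ : ∃ J : ℕ, g ^ p ^ J ∈ U.toSubgroup :=
    (hg.eventually (hUo.mem_nhds U.toSubgroup.one_mem)).exists
  filter_upwards [eventually_ge_atTop J] with j hj
  apply hU
  have hc : Continuous (fun x : S => x ^ p ^ j) := by fun_prop
  rw [← SetLike.mem_coe, Subgroup.topologicalClosure_coe] at hx
  have hsub : (Subgroup.zpowers g : Set S) ⊆ {x | x ^ p ^ j ∈ U.toSubgroup} := by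
    rintro _ ⟨i, rfl⟩
    show (g ^ i) ^ p ^ j ∈ U.toSubgroup
    have h1 : (g ^ i) ^ p ^ j = ((g ^ p ^ J) ^ p ^ (j - J)) ^ i := by
      rw [← pow_mul, ← pow_add, Nat.add_sub_cancel' hj]
      exact (zpow_comm_aux g _ i).symm
    rw [h1]
    exact U.toSubgroup.zpow_mem (U.toSubgroup.pow_mem hJ _) i
  exact closure_minimal hsub (hUc.preimage hc) hx

/-- there are no regular points of infinite orbit -/
theorem no_inf (hn : 1 ≤ n) [T2Space X] {Ψ : ℕ → OpenPartialHomeomorph X (E n)} {S : Type}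
    [Group S] [TopologicalSpace S] [IsTopologicalGroup S]
    [CompactSpace S] [T2Space S] [TotallyDisconnectedSpace S] [MulAction S X]
    [ContinuousSMul S X] (hreg : ∀ s : S, ∀ p : ℕ, p.Prime →
      Tendsto (fun j : ℕ => s ^ p ^ j) atTop (𝓝 1) → ∃ M : ℤ, M ≠ 0 ∧ RegO Ψ (s ^ M)) {p : ℕ}
    (hp : p.Prime) {g : S} (hg : Tendsto (fun j : ℕ => g ^ p ^ j) atTop (𝓝 1)) {x0 : X}
    (hx0 : x0 ∈ RegA (ACh Ψ)) :
    x0 ∉ closure {x : X | InfOrbit g x} := by
  classical
  intro hx0Z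
  obtain ⟨φ, hφ, hxφ, hφ0, H0, hH0o, ht4, hs4⟩ := start' (stable_ACh Ψ) (H := S) hx0
  have hH0c : IsClosed (H0 : Set S) := Subgroup.isClosed_of_isOpen H0 hH0o
  have hb4 : ball (0 : E n) 1 ⊆ closedBall 0 4 :=
    ball_subset_closedBall.trans (closedBall_subset_closedBall (by norm_num))
  have hbt : ball (0 : E n) 1 ⊆ φ.target := hb4.trans ht4
  -- a power in `H0`
  obtain ⟨J, hJ⟩ : ∃ J : ℕ, g ^ p ^ J ∈ H0 :=
    (hg.eventually (hH0o.mem_nhds H0.one_mem)).exists
  obtain ⟨g1, hg1⟩ : ∃ g1, g1 = g ^ p ^ J := ⟨_, rfl⟩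
  rw [← hg1] at hJ
  have hpow : ∀ j, g1 ^ p ^ j = g ^ p ^ (J + j) := fun j => by
    rw [hg1, ← pow_mul, ← pow_add]
  have hg1t : Tendsto (fun j : ℕ => g1 ^ p ^ j) atTop (𝓝 1) := by
    have h1 := (tendsto_add_atTop_iff_nat J).2 hg
    refine h1.congr fun j => ?_
    rw [hpow, add_comm]
  set D1 : Subgroup S := (Subgroup.zpowers (g1 ^ p)).topologicalClosure with hD1
  have hD1c : IsClosed (D1 : Set S) := Subgroup.isClosed_topologicalClosure _
  have hcD1 : CompactSpace D1 := isCompact_iff_compactSpace.1 hD1c.isCompact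
  have hD1H : D1 ≤ H0 := Subgroup.topologicalClosure_minimal _
    ((Subgroup.zpowers_le).2 (H0.pow_mem hJ p)) hH0c
  have hg1g : g1 ∈ (Subgroup.zpowers g).topologicalClosure := by
    rw [hg1]
    exact Subgroup.le_topologicalClosure _ (Subgroup.npow_mem_zpowers g _)
  have hD1g : D1 ≤ (Subgroup.zpowers g).topologicalClosure :=
    Subgroup.topologicalClosure_minimal _
      ((Subgroup.zpowers_le).2 (Subgroup.pow_mem _ hg1g p))
      (Subgroup.isClosed_topologicalClosure _)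
  -- the continua of `Z`
  set N : Set (E n) := {v | v ∈ ball (0 : E n) 1 ∧
    φ.symm v ∈ closure {x : X | InfOrbit g x}} with hN
  set P : Set (E n) := Cond N with hPdef
  have hPc : IsClosed P := isClosed_Cond N
  have hP : ∀ C ⊆ ball (0 : E n) 1, IsPreconnected C →
      (∀ v ∈ C, φ.symm v ∈ closure {x : X | InfOrbit g x}) → ¬ C.Subsingleton → C ⊆ P :=
    fun C hC hCp hCZ hns => subset_Cond hCp (fun v hv => ⟨hC hv, hCZ v hv⟩) hns
  have hPZ : ∀ v ∈ ball (0 : E n) 1 ∩ P, φ.symm v ∈ closure {x : X | InfOrbit g x} := by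
    rintro v ⟨hv, hvP⟩
    by_contra hno
    have h1 : ∀ᶠ w in 𝓝 v, φ.symm w ∉ closure {x : X | InfOrbit g x} :=
      (φ.continuousAt_symm (hbt hv)).eventually_mem (isClosed_closure.isOpen_compl.mem_nhds hno)
    apply hvP _ h1
    have h2 : {w | φ.symm w ∉ closure {x : X | InfOrbit g x}} ∩ N = ∅ := by
      ext w
      simp only [mem_inter_iff, mem_ofPred_eq, mem_empty_iff_false, iff_false, not_and]
      intro h3 h4
      exact h3 h4.2
    rw [h2]
    exact countable_empty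
  have hPn : (ball (0 : E n) 1 ∩ P).Nonempty := by
    by_contra hemp
    have h1 := no_fix hn hp hg (isOpen_ball (x := (0 : E n)) (ε := 1)) hbt one_pos (by
      intro C hC hCp hCZ hns v hv
      exact absurd ⟨v, hC hv, hP C hC hCp hCZ hns hv⟩ hemp) (mem_ball_self one_pos)
    apply h1
    rw [← hφ0, φ.left_inv hxφ]
    exact hx0Z
  -- the elements of the coset have the same points of infinite orbit
  have hγI : ∀ d ∈ D1, ∀ M : ℤ, M ≠ 0 → ∀ x : X, InfOrbit ((g1 * d) ^ M) x ↔ InfOrbit g x := by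
    intro d hd M hM x
    rw [inf_zpow' hM]
    constructor
    · exact fun h => inf_of_mem (Subgroup.mul_mem _ hg1g (hD1g hd)) h
    · intro h
      have h1 : InfOrbit g1 x := by
        rw [hg1]
        exact inf_pow (pow_pos hp.pos J) h
      exact inf_of_mem (gen_mem hg1t hd) h1
  -- Baire
  have hcount : (countableBasis (E n)).Countable := countable_countableBasis (E n)
  have : Countable (countableBasis (E n)) := hcount.to_subtype
  let st : ℕ × ℕ × (ℕ × ℕ) × countableBasis (E n) × countableBasis (E n) × ℤ → Prop := fun q =>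
    ((q.2.2.2.1 : Set (E n)) ⊆ ball 0 1 ∧ ((q.2.2.2.1 : Set (E n)) ∩ P).Nonempty ∧
      IsCompact (closure (q.2.2.2.2.1 : Set (E n))) ∧
      closure (q.2.2.2.2.1 : Set (E n)) ⊆ (Ψ q.2.1).target ∧
      (∀ v ∈ (q.2.2.2.1 : Set (E n)), φ.symm v ∈ (Ψ q.1).source) ∧ q.2.2.2.2.2 ≠ 0)
  let f : ℕ × ℕ × (ℕ × ℕ) × countableBasis (E n) × countableBasis (E n) × ℤ → Set D1 := fun q =>
    {d | st q ∧ (∀ v ∈ (q.2.2.2.1 : Set (E n)), (g1 * (d : S)) ^ q.2.2.2.2.2 • φ.symm v ∈
        (Ψ q.2.1).symm '' closure (q.2.2.2.2.1 : Set (E n))) ∧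
      ∀ j, OSX (Ψ q.1) (Ψ q.2.1) (φ.symm '' ((q.2.2.2.1 : Set (E n)) ∩ P)) ((1 / 2) ^ j)
        (lseq n q.2.2.1 j) (fun x => (g1 * (d : S)) ^ q.2.2.2.2.2 • x)}
  have hfc : ∀ q, IsClosed (f q) := by
    rintro ⟨i, i', k, ⟨B, hB⟩, ⟨B', hB'⟩, M⟩
    by_cases hq : st (i, i', k, ⟨B, hB⟩, ⟨B', hB'⟩, M)
    · obtain ⟨q1, q2, q3, q4, q5, q6⟩ := id hq
      change IsCompact (closure B') at q3
      change closure B' ⊆ (Ψ i').target at q4
      have hcl : IsClosed ((Ψ i').symm '' closure B') :=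
        (q3.image_of_continuousOn ((Ψ i').continuousOn_symm.mono q4)).isClosed
      have hsrc : (Ψ i').symm '' closure B' ⊆ (Ψ i').source := by
        rintro _ ⟨v, hv, rfl⟩
        exact (Ψ i').map_target (q4 hv)
      have hcd : ∀ v : E n, Continuous (fun d : D1 => (g1 * (d : S)) ^ M • φ.symm v) := by
        intro v
        fun_prop
      set E1 : Set D1 := {d | ∀ v ∈ B, (g1 * (d : S)) ^ M • φ.symm v ∈
        (Ψ i').symm '' closure B'} with hE1
      have hE1c : IsClosed E1 := by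
        have h1 : E1 = ⋂ v ∈ B, {d : D1 | (g1 * (d : S)) ^ M • φ.symm v ∈
            (Ψ i').symm '' closure B'} := by
          ext d
          simp [E1]
        rw [h1]
        exact isClosed_biInter fun v _ => hcl.preimage (hcd v)
      have h1 : f (i, i', k, ⟨B, hB⟩, ⟨B', hB'⟩, M) = ⋂ j : ℕ, {d : D1 | d ∈ E1 ∧
          OSX (Ψ i) (Ψ i') (φ.symm '' (B ∩ P)) ((1 / 2) ^ j) (lseq n k j)
            (fun x => (g1 * (d : S)) ^ M • x)} := by
        ext d
        simp only [f, mem_ofPred_eq, mem_iInter]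
        constructor
        · rintro ⟨-, h2, h3⟩ j
          exact ⟨h2, h3 j⟩
        · intro h
          exact ⟨hq, (h 0).1, fun j => (h j).2⟩
      rw [h1]
      refine isClosed_iInter fun j => ?_
      refine isClosed_osx (f := fun (d : D1) x => (g1 * (d : S)) ^ M • x) (Ψ i) (Ψ i') hE1c ?_
      rintro _ ⟨v, hv, rfl⟩
      exact (Ψ i').continuousOn.comp (hcd v).continuousOn fun d hd => hsrc (hd v hv.1)
    · have h1 : f (i, i', k, ⟨B, hB⟩, ⟨B', hB'⟩, M) = ∅ := by
        ext d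
        simp only [f, mem_ofPred_eq, mem_empty_iff_false, iff_false, not_and]
        exact fun h => (hq h).elim
      rw [h1]
      exact isClosed_empty
  have hfU : ⋃ q, f q = univ := by
    ext d
    simp only [mem_iUnion, mem_univ, iff_true]
    obtain ⟨M, hM, hregM⟩ := hreg (g1 * (d : S)) p hp
      (tendsto_mem hg (Subgroup.mul_mem _ hg1g (hD1g d.2)))
    obtain ⟨i, i', k, B, hB, B', hB', h1, h2, h3, h4, h5, h6, h7⟩ := one_os hn Ψ hp hg hφ hregM
      ht4 (hγI d d.2 M hM) hPc hPZ hP hPn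
    exact ⟨(i, i', k, ⟨B, hB⟩, ⟨B', hB'⟩, M), ⟨h1, h2, h3, h4, h5, hM⟩, h6, h7⟩
  obtain ⟨⟨i, i', k, ⟨B, hB⟩, ⟨B', hB'⟩, M⟩, s0, hs0⟩ :=
    nonempty_interior_of_iUnion_of_closed (f := f) hfc hfU
  have hopen : IsOpen ((fun k : D1 => s0 * k) ⁻¹'
      (interior (f (i, i', k, ⟨B, hB⟩, ⟨B', hB'⟩, M)))) :=
    isOpen_interior.preimage (continuous_const.mul continuous_id)
  obtain ⟨U, hU⟩ := ProfiniteGrp.exist_openNormalSubgroup_sub_open_nhds_of_one hopen (by
    rw [mem_preimage, mul_one]; exact hs0)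
  have hD : ∀ u ∈ U.toSubgroup, s0 * u ∈ f (i, i', k, ⟨B, hB⟩, ⟨B', hB'⟩, M) := fun u hu =>
    interior_subset (hU hu)
  obtain ⟨⟨hB1, ⟨v1, hv1B, hv1P⟩, q3, q4, q5, hM⟩, q6, -⟩ := hD 1 U.toSubgroup.one_mem
  rw [mul_one] at q6
  change B ⊆ ball 0 1 at hB1
  change v1 ∈ B at hv1B
  change closure B' ⊆ (Ψ i').target at q4
  change ∀ v ∈ B, φ.symm v ∈ (Ψ i).source at q5
  change M ≠ 0 at hM
  change ∀ v ∈ B, (g1 * (s0 : S)) ^ M • φ.symm v ∈ (Ψ i').symm '' closure B' at q6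
  have hBo : IsOpen B := (isBasis_countableBasis (E n)).isOpen hB
  have hUo : IsOpen (U.toSubgroup : Set D1) := U.isOpen'
  have hUc : IsClosed (U.toSubgroup : Set D1) := Subgroup.isClosed_of_isOpen _ hUo
  have hcomm : ∀ a ∈ D1, ∀ b ∈ D1, Commute a b := fun a ha b hb =>
    comm_closure (hD1g ha) (hD1g hb)
  -- the subgroup of the powers
  let K : Subgroup S :=
    { carrier := {x | ∃ k : D1, k ∈ U.toSubgroup ∧ (k : S) ^ M = x}
      mul_mem' := by
        rintro _ _ ⟨a, ha, rfl⟩ ⟨b, hb, rfl⟩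
        exact ⟨a * b, U.toSubgroup.mul_mem ha hb, (hcomm a a.2 b b.2).mul_zpow M⟩
      one_mem' := ⟨1, U.toSubgroup.one_mem, by simp⟩
      inv_mem' := by
        rintro _ ⟨a, ha, rfl⟩
        exact ⟨a⁻¹, U.toSubgroup.inv_mem ha, by simp⟩ }
  have hKc : IsClosed (K : Set S) := by
    have h1 : (K : Set S) = (fun k : D1 => (k : S) ^ M) '' (U.toSubgroup : Set D1) := rfl
    rw [h1]
    have hc : Continuous (fun k : D1 => (k : S) ^ M) := by fun_prop
    exact (hUc.isCompact.image hc).isClosed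
  have hKD : ∀ k ∈ K, k ∈ D1 := by
    rintro _ ⟨k, -, rfl⟩
    exact D1.zpow_mem k.2 M
  obtain ⟨K1, hK1o, hK1t⟩ := rel_coset hn (φ := φ) (ψ := Ψ i) (χ := Ψ i') (g := g)
    (s1 := (g1 * (s0 : S)) ^ M) hBo
    (hB1.trans hbt) hPc (fun C hC => hP C (hC.trans hB1)) q5
    (fun v hv => by
      obtain ⟨u, hu, hu'⟩ := q6 v hv
      rw [← hu']
      exact (Ψ i').map_target (q4 hu)) (r := fun j => (1 / 2) ^ j)
    (l := lseq n k) (fun j => by positivity) (fun j => pow_le_one₀ (by norm_num) (by norm_num))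
    (fun j => lseq_nonneg n k j) (tendsto_lseq hn k) (m := 0) hKc
    (fun k hk => hD1g (hKD k hk)) (by
      rintro _ ⟨u, hu, rfl⟩ j _
      have h1 := (hD u hu).2.2 j
      have h2 : (g1 * ((s0 * u : D1) : S)) ^ M = (g1 * (s0 : S)) ^ M * (u : S) ^ M := by
        rw [Subgroup.coe_mul, ← mul_assoc]
        exact (comm_closure (Subgroup.mul_mem _ hg1g (hD1g s0.2)) (hD1g u.2)).mul_zpow M
      simp only [h2] at h1
      exact h1) hv1B
  -- a power in `K1`
  have hg1p : ∀ j : ℕ, g1 ^ p ^ (j + 1) ∈ D1 := by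
    intro j
    rw [pow_succ', pow_mul]
    exact Subgroup.pow_mem _ (Subgroup.le_topologicalClosure _ (Subgroup.mem_zpowers _)) _
  have ht1 : Tendsto (fun j : ℕ => (⟨g1 ^ p ^ (j + 1), hg1p j⟩ : D1)) atTop (𝓝 1) := by
    rw [tendsto_subtype_rng]
    exact (tendsto_add_atTop_iff_nat 1).2 hg1t
  obtain ⟨j0, hj0⟩ := (ht1.eventually (hUo.mem_nhds U.toSubgroup.one_mem)).exists
  have heK : (g1 ^ p ^ (j0 + 1)) ^ M ∈ K := ⟨_, hj0, rfl⟩
  have ht2 : Tendsto (fun j : ℕ => (⟨(g1 ^ p ^ (j0 + 1)) ^ M, heK⟩ : K) ^ p ^ j) atTop (𝓝 1) := by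
    rw [tendsto_subtype_rng]
    have h1 := ((tendsto_add_atTop_iff_nat (j0 + 1)).2 hg1t).zpow M
    rw [one_zpow] at h1
    refine h1.congr fun j => ?_
    simp only [SubmonoidClass.coe_pow]
    rw [add_comm, pow_add, pow_mul]
    exact zpow_comm_aux _ _ _
  obtain ⟨j1, hj1⟩ := (ht2.eventually (hK1o.mem_nhds K1.one_mem)).exists
  have hv1Z := hPZ v1 ⟨hB1 hv1B, hv1P⟩
  obtain ⟨x, hxt, hx⟩ := mem_closure_iff_nhds.1 hv1Z _ hK1t
  have h1 : ((g1 ^ p ^ (j0 + 1)) ^ M) ^ p ^ j1 • x = x := hxt _ hj1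
  rw [hpow] at h1
  have h3 : InfOrbit ((g ^ p ^ (J + (j0 + 1))) ^ M) x :=
    (inf_zpow' hM).2 (inf_pow (pow_pos hp.pos _) hx)
  exact h3 _ (pow_pos hp.pos _) h1

theorem crit_regO (hn : 1 ≤ n) [T2Space X] {Ψ : ℕ → OpenPartialHomeomorph X (E n)} {S : Type}
    [Group S] [TopologicalSpace S] [IsTopologicalGroup S]
    [CompactSpace S] [T2Space S] [TotallyDisconnectedSpace S] [MulAction S X]
    [ContinuousSMul S X] (hreg : ∀ s : S, ∀ p : ℕ, p.Prime →
      Tendsto (fun j : ℕ => s ^ p ^ j) atTop (𝓝 1) → ∃ M : ℤ, M ≠ 0 ∧ RegO Ψ (s ^ M)) (s : S) :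
    Crit (ACh Ψ) s := by
  intro p hp hgp hcomp φ hφ hs
  obtain ⟨F0, -, -, -, h4⟩ := Pool.Agent.N512.HS.exists_good_inf hcomp hs
  apply h4
  intro y hy ε hε
  refine ⟨y, hy, by rwa [dist_self], ?_⟩
  intro C hC3 _ hCZ _ v hv
  have hvt : v ∈ φ.target := hs.1 (closedBall_subset_closedBall (by norm_num) (hC3 hv))
  exact absurd (hCZ v hv) (no_inf hn hreg hp hgp ⟨φ, hφ, φ.map_target hvt⟩)

/-- The Hilbert-Smith conjecture for homeomorphisms with one-sided Hölder conditions along the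
infinite orbits, off countable unions of closed totally disconnected sets. -/
theorem lie_osi (hn : 1 ≤ n) [T2Space X] (Ψ : ℕ → OpenPartialHomeomorph X (E n))
    (hdense : Dense (⋃ i, (Ψ i).source)) (hconn : IsPreconnected (⋃ i, (Ψ i).source))
    {G : Type} [Group G] [TopologicalSpace G]
    [IsTopologicalGroup G] [LocallyCompactSpace G] [MulAction G X] [ContinuousSMul G X]
    [FaithfulSMul G X] {V : Set G} (hV : V ∈ 𝓝 (1 : G))
    (hreg : ∀ g, SmallPow V g → ∀ p : ℕ, p.Prime →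
      Tendsto (fun j : ℕ => g ^ p ^ j) atTop (𝓝 1) → ∃ M : ℤ, M ≠ 0 ∧ RegO Ψ (g ^ M)) :
    IsLie G := by
  have hT2 : T2Space G := by
    refine ⟨fun g h hgh => ?_⟩
    obtain ⟨x, hx⟩ : ∃ x : X, g • x ≠ h • x := by
      by_contra hall
      push Not at hall
      exact hgh (eq_of_smul_eq_smul hall)
    obtain ⟨u, v, hu, hv, hgu, hhv, huv⟩ := t2_separation hx
    have hc : Continuous (fun g : G => g • x) := by fun_prop
    exact ⟨_, _, hu.preimage hc, hv.preimage hc, hgu, hhv, huv.preimage _⟩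
  have hN : NSS G := by
    refine nss_of_Z V hV ?_
    intro S _ _ _ _ _ _ i hi hinj hiV
    let _ : MulAction S X := MulAction.compHom X i
    have _ : ContinuousSMul S X := ⟨by
      have h : Continuous (fun q : S × X => i q.1 • q.2) := by fun_prop
      exact h⟩
    have hInf : ∀ (s : S) (x : X), InfOrbit s x ↔ InfOrbit (i s) x := by
      intro s x
      have h1 : ∀ m : ℕ, s ^ m • x = (i s) ^ m • x := by
        intro m
        rw [← map_pow]
        rfl
      simp only [InfOrbit, h1]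
    have hregS : ∀ s : S, ∀ p : ℕ, p.Prime → Tendsto (fun j : ℕ => s ^ p ^ j) atTop (𝓝 1) →
        ∃ M : ℤ, M ≠ 0 ∧ RegO Ψ (s ^ M) := by
      intro s p hp hs
      have hs' : Tendsto (fun j : ℕ => (i s) ^ p ^ j) atTop (𝓝 1) := by
        have h2 := (hi.tendsto 1).comp hs
        simpa [Function.comp_def] using h2
      obtain ⟨M, hM, T, hT1, hT2, hT3⟩ := hreg (i s) (smallPow_of_hom i hi hiV s) p hp hs'
      rw [← map_zpow] at hT3
      refine ⟨M, hM, T, hT1, hT2, fun a x hx hxI hxT => ?_⟩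
      obtain ⟨a1, a2, h1, h2, β, hβ, N, h3⟩ := hT3 a x hx ((hInf _ x).1 hxI) hxT
      refine ⟨a1, a2, h1, h2, β, hβ, N, ?_⟩
      filter_upwards [h3] with y hy hyI
      exact hy ((hInf _ y).1 hyI)
    obtain ⟨K, hKo, hKt⟩ := profinite' hn (stable_ACh Ψ) (by rw [regA_ACh]; exact hdense)
      (by rw [regA_ACh]; exact hconn)
      (fun s => crit_regO hn hregS s) (fun K P _ q hq =>
        crit_of_hom (K.subtype.comp P.subtype)
          (continuous_subtype_val.comp continuous_subtype_val) (fun _ _ => rfl) q hq)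
    have hbot : K = ⊥ := by
      rw [eq_bot_iff]
      intro k hk
      rw [Subgroup.mem_bot]
      apply hinj
      refine eq_of_smul_eq_smul (α := X) fun x => ?_
      rw [map_one, one_smul]
      exact hKt k hk x
    rw [hbot] at hKo
    refine discreteTopology_of_isOpen_singleton_one ?_
    convert hKo using 1
    ext x
    simp
  obtain ⟨E, i1, i2, i3, ⟨C⟩⟩ := Pool.Agent.Y328.HS.lga G hN
  let _ := i1
  let _ := i2
  have _ := i3
  exact Pool.Agent.Y286.HS.lgb G E C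

end

end Run7.h575.OI
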